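import Mathlib

set_option autoImplicit false

/-!
# Finite graphs all of whose balls expand: growth and concentration

Basic facts about a finite connected graph in which every ball is an `h`-vertex-expander.
-/

namespace Pool.Agent.Lib.MP_2f27c1_co

open Finset

variable {V : Type*} [Fintype V]

set_option linter.unusedSectionVars false

/-- The ball of radius `r` around `v`, as a finite set. -/
noncomputable def bl (G : SimpleGraph V) (v : V) (r : ℕ) : Finset V := by
  classical exact univ.filter (fun w => G.dist v w ≤ r)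

/-- Neighbourhood growth inside `B`. -/
noncomputable def grow (G : SimpleGraph V) (B E : Finset V) : Finset V := by
  classical exact E ∪ B.filter (fun w => ∃ u ∈ E, G.Adj u w)

/-- All balls are `h`-expanders (vertex expansion). -/
def Expd (G : SimpleGraph V) (h : ℝ) : Prop :=
  ∀ (v : V) (r : ℕ) (S T : Finset V), S ⊆ bl G v r → 2 * S.card ≤ (bl G v r).card →
    (∀ w, w ∈ T ↔ w ∈ bl G v r ∧ w ∉ S ∧ ∃ u ∈ S, G.Adj u w) →
    h * (S.card : ℝ) ≤ (T.card : ℝ)

/-- Every vertex has at most `D` neighbours. -/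
def DegLe (G : SimpleGraph V) (D : ℕ) : Prop :=
  ∀ (v : V) (S : Finset V), (∀ w ∈ S, G.Adj v w) → S.card ≤ D

theorem mem_bl {G : SimpleGraph V} {v w : V} {r : ℕ} : w ∈ bl G v r ↔ G.dist v w ≤ r := by
  classical
  simp [bl]

theorem mem_grow {G : SimpleGraph V} {B E : Finset V} {w : V} :
    w ∈ grow G B E ↔ w ∈ E ∨ (w ∈ B ∧ ∃ u ∈ E, G.Adj u w) := by
  classical
  simp [grow]

theorem self_mem_bl (G : SimpleGraph V) (v : V) (r : ℕ) : v ∈ bl G v r := by
  simp [mem_bl]

theorem bl_card_pos (G : SimpleGraph V) (v : V) (r : ℕ) : 0 < (bl G v r).card :=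
  card_pos.mpr ⟨v, self_mem_bl G v r⟩

theorem bl_mono (G : SimpleGraph V) (v : V) {r s : ℕ} (h : r ≤ s) : bl G v r ⊆ bl G v s := by
  intro w hw
  rw [mem_bl] at *
  omega

theorem bl_subset_bl {G : SimpleGraph V} (hc : G.Connected) {u v : V} {r s t : ℕ}
    (huv : G.dist u v ≤ t) (hrs : s + t ≤ r) : bl G v s ⊆ bl G u r := by
  intro w hw
  rw [mem_bl] at *
  have := hc.dist_triangle (u := u) (v := v) (w := w)
  omega

/-- Midpoints. -/
theorem exists_mid {G : SimpleGraph V} (hc : G.Connected) (a y : V) (p q : ℕ)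
    (h : G.dist a y ≤ p + q) : ∃ z, G.dist a z ≤ p ∧ G.dist z y ≤ q := by
  obtain ⟨w, hw⟩ := hc.exists_walk_length_eq_dist a y
  refine ⟨w.getVert p, ?_, ?_⟩
  · refine le_trans (SimpleGraph.dist_le (w.take p)) ?_
    rw [SimpleGraph.Walk.take_length]
    exact min_le_left _ _
  · refine le_trans (SimpleGraph.dist_le (w.drop p)) ?_
    rw [SimpleGraph.Walk.drop_length]
    omega

/-- Geodesics as functions on `ℕ`. -/
theorem exists_geod {G : SimpleGraph V} (hc : G.Connected) (v x : V) (r : ℕ)
    (h : G.dist v x = r) :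
    ∃ u : ℕ → V, u 0 = v ∧ u r = x ∧ (∀ i, i < r → G.Adj (u i) (u (i + 1))) := by
  obtain ⟨w, hw⟩ := hc.exists_walk_length_eq_dist v x
  refine ⟨w.getVert, w.getVert_zero, ?_, ?_⟩
  · rw [← h, ← hw]
    exact w.getVert_length
  · intro i hi
    apply w.adj_getVert_succ
    omega

theorem dist_geod {G : SimpleGraph V} (hc : G.Connected) (u : ℕ → V) (r : ℕ)
    (hu : ∀ i, i < r → G.Adj (u i) (u (i + 1))) (i j : ℕ) (hij : i ≤ j) (hj : j ≤ r) :
    G.dist (u i) (u j) ≤ j - i := by
  induction j, hij using Nat.le_induction with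
  | base => simp
  | succ j hij ih =>
    have h1 := ih (by omega)
    have h2 : G.dist (u j) (u (j + 1)) = 1 := SimpleGraph.dist_eq_one_iff_adj.mpr (hu j (by omega))
    have h3 := hc.dist_triangle (u := u i) (v := u j) (w := u (j + 1))
    omega

/-- The whole graph is a ball. -/
theorem bl_univ {G : SimpleGraph V} (v : V) : ∃ R, bl G v R = univ := by
  classical
  refine ⟨univ.sup (fun w => G.dist v w), ?_⟩
  ext w
  simp only [mem_bl, mem_univ, iff_true]
  exact le_sup (f := fun w => G.dist v w) (mem_univ w)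

theorem card_grow {G : SimpleGraph V} {h : ℝ} (hE : Expd G h) (v : V) (r : ℕ)
    (E : Finset V) (hEB : E ⊆ bl G v r) (h2 : 2 * E.card ≤ (bl G v r).card) :
    (1 + h) * (E.card : ℝ) ≤ ((grow G (bl G v r) E).card : ℝ) := by
  classical
  have h1 := hE v r E ((bl G v r).filter (fun w => w ∉ E ∧ ∃ u ∈ E, G.Adj u w)) hEB h2
    (by intro w; simp [mem_filter])
  have h3 : E ∪ (bl G v r).filter (fun w => w ∉ E ∧ ∃ u ∈ E, G.Adj u w) ⊆
      grow G (bl G v r) E := by
    intro w hw
    rw [mem_grow]
    rw [mem_union, mem_filter] at hw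
    tauto
  have h4 : Disjoint E ((bl G v r).filter (fun w => w ∉ E ∧ ∃ u ∈ E, G.Adj u w)) := by
    rw [disjoint_left]
    intro w hw hw'
    rw [mem_filter] at hw'
    exact hw'.2.1 hw
  have h5 := card_le_card h3
  rw [card_union_of_disjoint h4] at h5
  have h6 : ((E.card : ℝ) + (((bl G v r).filter (fun w => w ∉ E ∧ ∃ u ∈ E, G.Adj u w)).card : ℝ))
      ≤ ((grow G (bl G v r) E).card : ℝ) := by exact_mod_cast h5
  linarith

theorem card_compl_grow {G : SimpleGraph V} {h : ℝ} (hE : Expd G h) (v : V) (r : ℕ)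
    (E C C' : Finset V) (hC : ∀ w, w ∈ C ↔ w ∈ bl G v r ∧ w ∉ grow G (bl G v r) E)
    (hC' : ∀ w, w ∈ C' ↔ w ∈ bl G v r ∧ w ∉ E)
    (h2 : 2 * C.card ≤ (bl G v r).card) :
    (1 + h) * (C.card : ℝ) ≤ (C'.card : ℝ) := by
  classical
  have h1 := hE v r C ((bl G v r).filter (fun w => w ∉ C ∧ ∃ u ∈ C, G.Adj u w))
    (fun w hw => ((hC w).1 hw).1) h2 (by intro w; simp [mem_filter])
  have h3 : C ∪ (bl G v r).filter (fun w => w ∉ C ∧ ∃ u ∈ C, G.Adj u w) ⊆ C' := by
    intro w hw
    rw [hC']
    rw [mem_union, mem_filter] at hw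
    rcases hw with hw | ⟨hw, hwC, u, hu, huw⟩
    · have := (hC w).1 hw
      rw [mem_grow] at this
      tauto
    · refine ⟨hw, fun hwE => ?_⟩
      have := (hC u).1 hu
      rw [mem_grow] at this
      exact this.2 (Or.inr ⟨this.1, w, hwE, huw.symm⟩)
  have h4 : Disjoint C ((bl G v r).filter (fun w => w ∉ C ∧ ∃ u ∈ C, G.Adj u w)) := by
    rw [disjoint_left]
    intro w hw hw'
    rw [mem_filter] at hw'
    exact hw'.2.1 hw
  have h5 := card_le_card h3
  rw [card_union_of_disjoint h4] at h5
  have h6 : ((C.card : ℝ) + (((bl G v r).filter (fun w => w ∉ C ∧ ∃ u ∈ C, G.Adj u w)).card : ℝ))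
      ≤ (C'.card : ℝ) := by exact_mod_cast h5
  linarith

/-- Growth of balls. -/
theorem bl_growth {G : SimpleGraph V} {h : ℝ} (hE : Expd G h) (v : V) (r : ℕ)
    (h2 : 2 * (bl G v r).card ≤ Fintype.card V) (hc : G.Connected) :
    (1 + h) * ((bl G v r).card : ℝ) ≤ ((bl G v (r + 1)).card : ℝ) := by
  classical
  obtain ⟨R, hR⟩ := bl_univ (G := G) v
  have h1 := card_grow hE v R (bl G v r) (by rw [hR]; exact subset_univ _)
    (by rw [hR, card_univ]; exact h2)
  refine h1.trans ?_
  have : grow G (bl G v R) (bl G v r) ⊆ bl G v (r + 1) := by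
    intro w hw
    rw [mem_grow] at hw
    rcases hw with hw | ⟨_, u, hu, huw⟩
    · exact bl_mono G v (Nat.le_succ r) hw
    · rw [mem_bl] at *
      have h3 := hc.dist_triangle (u := v) (v := u) (w := w)
      have h4 : G.dist u w = 1 := SimpleGraph.dist_eq_one_iff_adj.mpr huw
      omega
  exact_mod_cast card_le_card this

/-- Balls grow by at most a factor `D + 1`. -/
theorem bl_succ_le {G : SimpleGraph V} {D : ℕ} (hD : DegLe G D) (hc : G.Connected) (v : V)
    (r : ℕ) : (bl G v (r + 1)).card ≤ (D + 1) * (bl G v r).card := by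
  classical
  have h1 : bl G v (r + 1) ⊆ (bl G v r).biUnion (fun u => insert u (univ.filter (fun w => G.Adj u w))) := by
    intro w hw
    rw [mem_bl] at hw
    obtain ⟨z, hz1, hz2⟩ := exists_mid hc v w r 1 hw
    rw [mem_biUnion]
    refine ⟨z, mem_bl.mpr hz1, ?_⟩
    rw [mem_insert, mem_filter]
    rcases Nat.le_one_iff_eq_zero_or_eq_one.mp hz2 with h0 | h1
    · left
      exact ((hc.dist_eq_zero_iff).mp h0).symm
    · right
      exact ⟨mem_univ _, SimpleGraph.dist_eq_one_iff_adj.mp h1⟩
  refine (card_le_card h1).trans ?_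
  refine card_biUnion_le.trans ?_
  calc ∑ u ∈ bl G v r, (insert u (univ.filter (fun w => G.Adj u w))).card
      ≤ ∑ u ∈ bl G v r, (D + 1) := by
        apply sum_le_sum
        intro u _
        refine (card_insert_le _ _).trans ?_
        have := hD u (univ.filter (fun w => G.Adj u w)) (by intro w hw; rw [mem_filter] at hw; exact hw.2)
        omega
    _ = (D + 1) * (bl G v r).card := by rw [sum_const, smul_eq_mul, mul_comm]

theorem bl_add_le {G : SimpleGraph V} {D : ℕ} (hD : DegLe G D) (hc : G.Connected) (v : V)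
    (r t : ℕ) : (bl G v (r + t)).card ≤ (D + 1) ^ t * (bl G v r).card := by
  induction t with
  | zero => simp
  | succ t ih =>
    refine (bl_succ_le hD hc v (r + t)).trans ?_
    calc (D + 1) * (bl G v (r + t)).card ≤ (D + 1) * ((D + 1) ^ t * (bl G v r).card) :=
          Nat.mul_le_mul_left _ ih
      _ = (D + 1) ^ (t + 1) * (bl G v r).card := by ring

/-- The maximal size of a ball of radius `r`. -/
noncomputable def mb (G : SimpleGraph V) (r : ℕ) : ℕ := univ.sup (fun v => (bl G v r).card)

theorem bl_le_mb (G : SimpleGraph V) (v : V) (r : ℕ) : (bl G v r).card ≤ mb G r :=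
  le_sup (f := fun v => (bl G v r).card) (mem_univ v)

theorem exists_mb [Nonempty V] (G : SimpleGraph V) (r : ℕ) : ∃ v, (bl G v r).card = mb G r := by
  obtain ⟨v, _, hv⟩ := exists_mem_eq_sup univ univ_nonempty (fun v => (bl G v r).card)
  exact ⟨v, hv.symm⟩

theorem mb_pos [Nonempty V] (G : SimpleGraph V) (r : ℕ) : 0 < mb G r := by
  obtain ⟨v, hv⟩ := exists_mb G r
  rw [← hv]
  exact bl_card_pos G v r

theorem mb_mono (G : SimpleGraph V) {r s : ℕ} (h : r ≤ s) : mb G r ≤ mb G s := by
  apply Finset.sup_le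
  intro v _
  exact (card_le_card (bl_mono G v h)).trans (bl_le_mb G v s)

theorem mb_add_le {G : SimpleGraph V} {D : ℕ} (hD : DegLe G D) (hc : G.Connected)
    (r t : ℕ) : mb G (r + t) ≤ (D + 1) ^ t * mb G r := by
  apply Finset.sup_le
  intro v _
  refine (bl_add_le hD hc v r t).trans ?_
  exact Nat.mul_le_mul_left _ (bl_le_mb G v r)

theorem mb_zero [Nonempty V] {G : SimpleGraph V} (hc : G.Connected) : mb G 0 = 1 := by
  obtain ⟨v, hv⟩ := exists_mb G 0
  rw [← hv, card_eq_one]
  refine ⟨v, ?_⟩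
  ext w
  rw [mem_bl, mem_singleton, Nat.le_zero, hc.dist_eq_zero_iff]
  exact eq_comm

theorem mb_growth [Nonempty V] {G : SimpleGraph V} {h : ℝ} (hE : Expd G h) (hc : G.Connected)
    (r : ℕ) (h2 : 2 * mb G r ≤ Fintype.card V) :
    (1 + h) * (mb G r : ℝ) ≤ (mb G (r + 1) : ℝ) := by
  obtain ⟨v, hv⟩ := exists_mb G r
  have h1 := bl_growth hE v r (by omega) hc
  rw [hv] at h1
  refine h1.trans ?_
  exact_mod_cast bl_le_mb G v (r + 1)

/-- Iterated growth. -/
noncomputable def itg (G : SimpleGraph V) (B A : Finset V) : ℕ → Finset V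
  | 0 => A
  | (t + 1) => grow G B (itg G B A t)

theorem itg_subset {G : SimpleGraph V} {B A : Finset V} (hA : A ⊆ B) (t : ℕ) :
    itg G B A t ⊆ B := by
  induction t with
  | zero => exact hA
  | succ t ih =>
    intro w hw
    rw [itg, mem_grow] at hw
    rcases hw with hw | hw
    · exact ih hw
    · exact hw.1

theorem itg_mono {G : SimpleGraph V} {B A : Finset V} (t : ℕ) :
    itg G B A t ⊆ itg G B A (t + 1) := by
  intro w hw
  rw [itg, mem_grow]
  exact Or.inl hw

theorem itg_mono_le {G : SimpleGraph V} {B A : Finset V} {i t : ℕ} (hi : i ≤ t) :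
    itg G B A i ⊆ itg G B A t := by
  induction t, hi using Nat.le_induction with
  | base => exact subset_rfl
  | succ t _ ih => exact ih.trans (itg_mono t)

theorem itg_near {G : SimpleGraph V} (hc : G.Connected) {B A : Finset V} (t : ℕ) (x : V)
    (hx : x ∈ itg G B A t) : ∃ y ∈ A, G.dist y x ≤ t := by
  induction t generalizing x with
  | zero => exact ⟨x, hx, by simp⟩
  | succ t ih =>
    rw [itg, mem_grow] at hx
    rcases hx with hx | ⟨_, u, hu, hux⟩
    · obtain ⟨y, hy, hd⟩ := ih x hx
      exact ⟨y, hy, by omega⟩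
    · obtain ⟨y, hy, hd⟩ := ih u hu
      refine ⟨y, hy, ?_⟩
      have h3 := hc.dist_triangle (u := y) (v := u) (w := x)
      have h4 : G.dist u x = 1 := SimpleGraph.dist_eq_one_iff_adj.mpr hux
      omega

/-- Concentration: all but a `(1+h)^(-s)` proportion of a ball is near any subset of density
at least `δ`. -/
theorem concentration {G : SimpleGraph V} {h : ℝ} (hh : 0 < h) (hE : Expd G h)
    (v : V) (r : ℕ) (A : Finset V) (hA : A ⊆ bl G v r) (δ : ℝ)
    (hδ : δ * ((bl G v r).card : ℝ) ≤ (A.card : ℝ)) (t s : ℕ) (ht : 1 < 2 * (δ * (1 + h) ^ t))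
    (C : Finset V) (hC : ∀ w, w ∈ C ↔ w ∈ bl G v r ∧ w ∉ itg G (bl G v r) A (t + s)) :
    (1 + h) ^ s * (C.card : ℝ) ≤ ((bl G v r).card : ℝ) := by
  classical
  set B := bl G v r with hB
  have hBpos : (0 : ℝ) < (B.card : ℝ) := by
    exact_mod_cast bl_card_pos G v r
  -- after t steps more than half
  have hhalf : B.card < 2 * (itg G B A t).card := by
    by_contra hcon
    push Not at hcon
    have hall : ∀ i ≤ t, 2 * (itg G B A i).card ≤ B.card := by
      intro i hi
      have hm : itg G B A i ⊆ itg G B A t := itg_mono_le hi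
      have := card_le_card hm
      omega
    have hgr : ∀ i ≤ t, (1 + h) ^ i * (A.card : ℝ) ≤ ((itg G B A i).card : ℝ) := by
      intro i
      induction i with
      | zero => intro _; simp [itg]
      | succ i ih =>
        intro hi
        have h1 := ih (by omega)
        have h2 := card_grow hE v r (itg G B A i) (itg_subset hA i) (hall i (by omega))
        have h3 : itg G B A (i + 1) = grow G (bl G v r) (itg G B A i) := rfl
        rw [h3]
        refine le_trans ?_ h2
        calc (1 + h) ^ (i + 1) * (A.card : ℝ) = (1 + h) * ((1 + h) ^ i * (A.card : ℝ)) := by ring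
          _ ≤ (1 + h) * ((itg G B A i).card : ℝ) := by
              apply mul_le_mul_of_nonneg_left h1; linarith
    have h1 := hgr t le_rfl
    have h2 : (2 : ℝ) * ((itg G B A t).card : ℝ) ≤ (B.card : ℝ) := by
      exact_mod_cast hall t le_rfl
    have h3 : (1 + h) ^ t * (δ * (B.card : ℝ)) ≤ (1 + h) ^ t * (A.card : ℝ) := by
      apply mul_le_mul_of_nonneg_left hδ
      positivity
    have h4 : (B.card : ℝ) < 2 * (δ * (1 + h) ^ t) * (B.card : ℝ) := by
      calc (B.card : ℝ) = 1 * (B.card : ℝ) := by ring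
        _ < 2 * (δ * (1 + h) ^ t) * (B.card : ℝ) := by
            apply mul_lt_mul_of_pos_right ht hBpos
    nlinarith
  -- complements shrink
  have key : ∀ (i : ℕ) (C : Finset V),
      (∀ w, w ∈ C ↔ w ∈ B ∧ w ∉ itg G B A (t + i)) →
      2 * C.card ≤ B.card ∧ (1 + h) ^ i * (C.card : ℝ) ≤ (B.card : ℝ) := by
    intro i
    induction i with
    | zero =>
      intro C hC
      have h1 : C = B \ itg G B A t := by
        ext w; rw [hC, mem_sdiff]; rfl
      have h2 : C.card + (itg G B A t).card = B.card := by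
        rw [h1]
        exact card_sdiff_add_card_eq_card (itg_subset hA t)
      refine ⟨by omega, ?_⟩
      rw [pow_zero, one_mul]
      have : C.card ≤ B.card := by omega
      exact_mod_cast this
    | succ i ih =>
      intro C hC
      obtain ⟨h1, h2⟩ := ih (B.filter (fun w => w ∉ itg G B A (t + i)))
        (by intro w; rw [mem_filter])
      have hsub : C ⊆ B.filter (fun w => w ∉ itg G B A (t + i)) := by
        intro w hw
        rw [mem_filter]
        have := (hC w).1 hw
        refine ⟨this.1, fun h => this.2 ?_⟩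
        exact itg_mono (t + i) h
      have hcard := card_le_card hsub
      have h3 : 2 * C.card ≤ B.card := by omega
      refine ⟨h3, ?_⟩
      have h4 := card_compl_grow hE v r (itg G B A (t + i)) C
        (B.filter (fun w => w ∉ itg G B A (t + i)))
        (by intro w; rw [hC]; rfl)
        (by intro w; rw [mem_filter]) h3
      calc (1 + h) ^ (i + 1) * (C.card : ℝ) = (1 + h) ^ i * ((1 + h) * (C.card : ℝ)) := by ring
        _ ≤ (1 + h) ^ i * ((B.filter (fun w => w ∉ itg G B A (t + i))).card : ℝ) := by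
            apply mul_le_mul_of_nonneg_left h4; positivity
        _ ≤ (B.card : ℝ) := h2
  exact (key s C hC).2

end Pool.Agent.Lib.MP_2f27c1_co
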