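import Pool.Agent.Lib.MP_2f27c1_co.Levels

set_option autoImplicit false
set_option linter.unusedSectionVars false

/-!
# At most polynomially many levels have a bounded multiplicativity defect
-/

namespace Pool.Agent.Lib.MP_2f27c1_co

open Finset

universe w

theorem level_count (D : ℕ) (h : ℝ) (hh : 0 < h) (a : ℝ)
    (ha : a = Real.log ((D : ℝ) + 1) / Real.log (1 + h)) :
    ∃ C : ℝ, 0 < C ∧ ∀ (V : Type w) [Fintype V] [Nonempty V] (G : SimpleGraph V),
      G.Connected → DegLe G D → Expd G h → ∀ r : ℕ, 2 * mb G r ≤ Fintype.card V →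
      ∀ M : ℝ, 1 ≤ M → ∀ J : Finset ℕ, (∀ j ∈ J, j ≤ r ∧
        (mb G j : ℝ) * (mb G (r - j) : ℝ) ≤ M * (mb G r : ℝ)) →
      (J.card : ℝ) ≤ C * (1 + Real.log M) * M ^ (a * (1 + a)) := by
  classical
  have h1h : (1 : ℝ) < 1 + h := by linarith
  set κ : ℝ := h / (1 + h) with hκ
  have hκpos : 0 < κ := by positivity
  have hκ1 : κ ≤ 1 := by
    rw [hκ, div_le_one (by linarith)]; linarith
  have hlog : 0 < Real.log (1 + h) := Real.log_pos h1h
  have hD0 : (0 : ℝ) ≤ (D : ℝ) := Nat.cast_nonneg D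
  have ha0 : 0 ≤ a := by
    rw [ha]
    apply div_nonneg _ hlog.le
    apply Real.log_nonneg; linarith
  have hDpow : ∀ s : ℕ, ((D : ℝ) + 1) ^ s = ((1 + h) ^ s) ^ a := by
    intro s
    have h5 : (1 + h) ^ a = (D : ℝ) + 1 := by
      rw [Real.rpow_def_of_pos (by linarith), ha, mul_div_cancel₀ _ hlog.ne',
        Real.exp_log (by linarith)]
    rw [← Real.rpow_natCast (1 + h) s, ← Real.rpow_mul (by linarith), mul_comm,
      Real.rpow_mul (by linarith), h5, Real.rpow_natCast]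
  set C5 : ℝ := ((1 + h) * (8 / κ)) ^ a with hC5
  set C6 : ℝ := ((1 + h) * (4 * C5 / κ)) ^ a with hC6
  set C7 : ℝ := (2 / κ) * (((D : ℝ) + 1) * C6) with hC7
  set C8 : ℝ := (Real.log (8 / κ) + 1) / Real.log (1 + h) with hC8
  have hC5pos : 0 < C5 := by positivity
  have hC6pos : 0 < C6 := by positivity
  have hC7pos : 0 < C7 := by positivity
  have h8κ : 1 ≤ 8 / κ := by rw [le_div_iff₀ hκpos]; linarith
  have hlog8 : 0 ≤ Real.log (8 / κ) := Real.log_nonneg h8κ
  have hC8pos : 0 < C8 := by positivity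
  refine ⟨(1 + C8) * (1 + C7), by positivity, ?_⟩
  intro V _ _ G hc hD hE r hr M hM J hJ
  have hM0 : 0 < M := by linarith
  have hlogM : 0 ≤ Real.log M := Real.log_nonneg hM
  -- choice of σ
  obtain ⟨n1, hn1, hn1'⟩ := exists_nat_pow_near (x := 8 / κ * M) (by nlinarith) h1h
  set σ := n1 + 1 with hσ
  set Qσ : ℝ := (1 + h) ^ σ with hQσ
  have hQσpos : 0 < Qσ := by positivity
  have hQσ1 : 8 / κ * M ≤ Qσ := hn1'.le
  have hQσ2 : Qσ ≤ (1 + h) * (8 / κ) * M := by
    rw [hQσ, hσ, pow_succ]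
    calc (1 + h) ^ n1 * (1 + h) ≤ (8 / κ * M) * (1 + h) := by gcongr
      _ = (1 + h) * (8 / κ) * M := by ring
  have hDσ : ((D : ℝ) + 1) ^ σ ≤ C5 * M ^ a := by
    rw [hDpow, hC5, ← Real.mul_rpow (by positivity) hM0.le]
    exact Real.rpow_le_rpow (by positivity) hQσ2 ha0
  have hσle : (σ : ℝ) ≤ (1 + C8) * (1 + Real.log M) := by
    have h1 : (n1 : ℝ) * Real.log (1 + h) ≤ Real.log (8 / κ) + Real.log M := by
      rw [← Real.log_pow, ← Real.log_mul (by positivity) hM0.ne']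
      exact Real.log_le_log (by positivity) hn1
    have h2 : (n1 : ℝ) ≤ C8 * (1 + Real.log M) := by
      rw [hC8, div_mul_eq_mul_div, le_div_iff₀ hlog]
      nlinarith
    have h3 : (σ : ℝ) = (n1 : ℝ) + 1 := by rw [hσ]; push_cast; ring
    rw [h3]
    nlinarith
  -- choice of t2
  have hDσ1 : (1 : ℝ) ≤ ((D : ℝ) + 1) ^ σ := one_le_pow₀ (by linarith)
  obtain ⟨n2, hn2, hn2'⟩ := exists_nat_pow_near (x := 4 * M * ((D : ℝ) + 1) ^ σ / κ) (by
    rw [le_div_iff₀ hκpos]
    nlinarith) h1h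
  set t2 := n2 + 1 with ht2
  set Qt : ℝ := (1 + h) ^ t2 with hQt
  have hQtpos : 0 < Qt := by positivity
  have hQt1 : 4 * M * ((D : ℝ) + 1) ^ σ / κ ≤ Qt := hn2'.le
  have hQt2 : Qt ≤ (1 + h) * (4 * C5 / κ) * M ^ (1 + a) := by
    rw [hQt, ht2, pow_succ, Real.rpow_add hM0, Real.rpow_one]
    calc (1 + h) ^ n2 * (1 + h) ≤ (4 * M * ((D : ℝ) + 1) ^ σ / κ) * (1 + h) := by gcongr
      _ ≤ (4 * M * (C5 * M ^ a) / κ) * (1 + h) := by gcongr
      _ = (1 + h) * (4 * C5 / κ) * (M * M ^ a) := by ring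
  have hDt : ((D : ℝ) + 1) ^ t2 ≤ C6 * M ^ (a * (1 + a)) := by
    rw [hDpow, hC6]
    calc ((1 + h) ^ t2) ^ a ≤ ((1 + h) * (4 * C5 / κ) * M ^ (1 + a)) ^ a :=
          Real.rpow_le_rpow (by positivity) hQt2 ha0
      _ = ((1 + h) * (4 * C5 / κ)) ^ a * M ^ (a * (1 + a)) := by
          rw [Real.mul_rpow (by positivity) (by positivity), ← Real.rpow_mul hM0.le]
          ring_nf
  have hMpow : 1 ≤ M ^ (a * (1 + a)) := Real.one_le_rpow hM (by positivity)
  -- bound for separated sets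
  have hsep : ∀ J' : Finset ℕ, (∀ j ∈ J', j ∈ J) → (∀ j ∈ J', j + σ ≤ r) →
      (∀ j ∈ J', ∀ j' ∈ J', j < j' → j + σ ≤ j') → (J'.card : ℝ) ≤ C7 * M ^ (a * (1 + a)) := by
    intro J' hJ' hJr hJs
    rcases Nat.eq_zero_or_pos r with hr0 | hr0
    · have : J' = ∅ := by
        rw [eq_empty_iff_forall_notMem]
        intro j hj
        have := hJr j hj
        omega
      rw [this, card_empty, Nat.cast_zero]
      positivity
    have hcount := counting_levels hh hE hD hc r hr hr0 M 1 σ t2 r le_rfl J' hJr hJs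
      (fun j hj => (hJ j (hJ' j hj)).2) (by rw [Nat.sub_self, mb_zero hc]; simp)
    rw [← hκ, ← hQσ, ← hQt, mul_one] at hcount
    have h1 : 2 * M ≤ κ * Qσ / 4 := by
      have : κ * (8 / κ * M) = 8 * M := by field_simp
      nlinarith
    have h2 : ((D : ℝ) + 1) ^ σ * M ≤ κ * Qt / 4 := by
      have : κ * (4 * M * ((D : ℝ) + 1) ^ σ / κ) = 4 * M * ((D : ℝ) + 1) ^ σ := by field_simp
      nlinarith
    have hJ0 : (0 : ℝ) ≤ (J'.card : ℝ) := by positivity
    have h3 : κ * (J'.card : ℝ) * (Qσ * Qt) ≤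
        (J'.card : ℝ) * (κ * Qσ / 4 * Qt + κ * Qt / 4 * Qσ) +
        (Qσ * Qt) * ((D : ℝ) + 1) ^ (1 + t2) := by
      refine hcount.trans ?_
      gcongr
    have h4 : κ / 2 * (J'.card : ℝ) * (Qσ * Qt) ≤ ((D : ℝ) + 1) ^ (1 + t2) * (Qσ * Qt) := by
      nlinarith
    have h5 : κ / 2 * (J'.card : ℝ) ≤ ((D : ℝ) + 1) ^ (1 + t2) :=
      le_of_mul_le_mul_right h4 (by positivity)
    have h6 : κ / 2 * (J'.card : ℝ) ≤ κ / 2 * (C7 * M ^ (a * (1 + a))) := by
      refine h5.trans ?_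
      calc ((D : ℝ) + 1) ^ (1 + t2) = ((D : ℝ) + 1) * ((D : ℝ) + 1) ^ t2 := by
            rw [pow_add, pow_one]
        _ ≤ ((D : ℝ) + 1) * (C6 * M ^ (a * (1 + a))) := by gcongr
        _ = κ / 2 * (C7 * M ^ (a * (1 + a))) := by
            rw [hC7]; field_simp
    exact le_of_mul_le_mul_left h6 (by positivity)
  -- decomposition into residue classes
  have hcover : J ⊆ Ico (r + 1 - σ) (r + 1) ∪
      (range σ).biUnion (fun i => J.filter (fun j => j + σ ≤ r ∧ j % σ = i)) := by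
    intro j hj
    have hjr := (hJ j hj).1
    rw [mem_union, mem_Ico, mem_biUnion]
    by_cases hjs : j + σ ≤ r
    · right
      refine ⟨j % σ, ?_, ?_⟩
      · rw [mem_range]; exact Nat.mod_lt _ (by omega)
      · rw [mem_filter]; exact ⟨hj, hjs, rfl⟩
    · left; omega
  have hcard : J.card ≤ σ + ∑ i ∈ range σ, (J.filter (fun j => j + σ ≤ r ∧ j % σ = i)).card := by
    refine (card_le_card hcover).trans ((card_union_le _ _).trans ?_)
    refine add_le_add ?_ card_biUnion_le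
    rw [Nat.card_Ico]; omega
  have hcard' : (J.card : ℝ) ≤ σ + ∑ i ∈ range σ,
      ((J.filter (fun j => j + σ ≤ r ∧ j % σ = i)).card : ℝ) := by exact_mod_cast hcard
  have hclass : ∀ i ∈ range σ, ((J.filter (fun j => j + σ ≤ r ∧ j % σ = i)).card : ℝ) ≤
      C7 * M ^ (a * (1 + a)) := by
    intro i _
    apply hsep
    · intro j hj; rw [mem_filter] at hj; exact hj.1
    · intro j hj; rw [mem_filter] at hj; exact hj.2.1
    · intro j hj j' hj' hlt
      rw [mem_filter] at hj hj'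
      have h1 := Nat.div_add_mod j σ
      have h2 := Nat.div_add_mod j' σ
      rw [hj.2.2] at h1
      rw [hj'.2.2] at h2
      have h3 : j / σ < j' / σ := by
        by_contra hcon
        push Not at hcon
        have := Nat.mul_le_mul_left σ hcon
        omega
      have h4 : σ * (j / σ + 1) ≤ σ * (j' / σ) := Nat.mul_le_mul_left σ h3
      rw [Nat.mul_add, Nat.mul_one] at h4
      omega
  calc (J.card : ℝ) ≤ σ + ∑ i ∈ range σ,
      ((J.filter (fun j => j + σ ≤ r ∧ j % σ = i)).card : ℝ) := hcard'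
    _ ≤ σ + ∑ i ∈ range σ, C7 * M ^ (a * (1 + a)) := by
        gcongr with i hi
        exact hclass i hi
    _ = σ + σ * (C7 * M ^ (a * (1 + a))) := by
        rw [sum_const, card_range, nsmul_eq_mul]
    _ ≤ σ * M ^ (a * (1 + a)) + σ * (C7 * M ^ (a * (1 + a))) := by
        have : (0 : ℝ) ≤ (σ : ℝ) := by positivity
        nlinarith
    _ = σ * ((1 + C7) * M ^ (a * (1 + a))) := by ring
    _ ≤ ((1 + C8) * (1 + Real.log M)) * ((1 + C7) * M ^ (a * (1 + a))) := by
        gcongr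
    _ = (1 + C8) * (1 + C7) * (1 + Real.log M) * M ^ (a * (1 + a)) := by ring

end Pool.Agent.Lib.MP_2f27c1_co
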