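import Pool.Agent.Lib.MP_2f27c1_co.Basic

set_option autoImplicit false
set_option linter.unusedSectionVars false

/-!
# The counting argument, for arbitrary sets of levels
-/

namespace Pool.Agent.Lib.MP_2f27c1_co

open Finset

variable {V : Type*} [Fintype V]

theorem mb_growth_pow [Nonempty V] {G : SimpleGraph V} {h : ℝ} (hh : 0 < h) (hE : Expd G h)
    (hc : G.Connected) (r s : ℕ) (h2 : 2 * mb G (r + s) ≤ Fintype.card V) :
    (1 + h) ^ s * (mb G r : ℝ) ≤ (mb G (r + s) : ℝ) := by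
  induction s with
  | zero => simp
  | succ s ih =>
    have h3 : mb G (r + s) ≤ mb G (r + (s + 1)) := mb_mono G (by omega)
    have h4 := ih (by omega)
    have h5 := mb_growth hE hc (r + s) (by omega)
    have h6 : r + (s + 1) = r + s + 1 := by omega
    rw [h6]
    refine le_trans ?_ h5
    calc (1 + h) ^ (s + 1) * (mb G r : ℝ) = (1 + h) * ((1 + h) ^ s * (mb G r : ℝ)) := by ring
      _ ≤ (1 + h) * (mb G (r + s) : ℝ) := by
          apply mul_le_mul_of_nonneg_left h4; linarith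

/-- The set of points of `B(a,ρ)` far from `B(a,ρ) \ B(b,ρ-σ)` (when the latter is large). -/
noncomputable def far (G : SimpleGraph V) (t : ℕ) (a b : V) (ρ σ : ℕ) : Finset V := by
  classical exact if 2 * (bl G b (ρ - σ)).card ≤ (bl G a ρ).card then
    (bl G a ρ).filter (fun w => w ∉ itg G (bl G a ρ) (bl G a ρ \ bl G b (ρ - σ)) t) else ∅

theorem far_card {G : SimpleGraph V} {h : ℝ} (hh : 0 < h) (hE : Expd G h)
    (t2 : ℕ) (a b : V) (ρ σ : ℕ) :
    (1 + h) ^ t2 * ((far G (1 + t2) a b ρ σ).card : ℝ) ≤ (mb G ρ : ℝ) := by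
  classical
  by_cases hl : 2 * (bl G b (ρ - σ)).card ≤ (bl G a ρ).card
  · have h1 : ((bl G a ρ).card : ℝ) ≤ (mb G ρ : ℝ) := by exact_mod_cast bl_le_mb G a ρ
    refine le_trans ?_ h1
    apply concentration hh hE a ρ (bl G a ρ \ bl G b (ρ - σ)) sdiff_subset (1 / 2) ?_ 1 t2
      (by rw [pow_one]; linarith)
    · intro w
      rw [far, if_pos hl, mem_filter]
    · have h2 : (bl G a ρ).card ≤ (bl G a ρ \ bl G b (ρ - σ)).card + (bl G b (ρ - σ)).card := by
        have := le_card_sdiff (bl G b (ρ - σ)) (bl G a ρ)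
        omega
      have h3 : (bl G a ρ).card ≤ 2 * (bl G a ρ \ bl G b (ρ - σ)).card := by omega
      have h4 : ((bl G a ρ).card : ℝ) ≤ 2 * ((bl G a ρ \ bl G b (ρ - σ)).card : ℝ) := by
        exact_mod_cast h3
      linarith
  · rw [far, if_neg hl, card_empty]
    simp

/-- The main counting inequality for a `σ`-separated set `J` of levels. -/
theorem counting_levels [Nonempty V] {G : SimpleGraph V} {h : ℝ} {D : ℕ} (hh : 0 < h)
    (hE : Expd G h) (hD : DegLe G D) (hc : G.Connected) (r : ℕ)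
    (hr : 2 * mb G r ≤ Fintype.card V) (hr0 : 0 < r) (M M' : ℝ) (σ t2 : ℕ)
    (k : ℕ) (hk : k ≤ r) (J : Finset ℕ) (hJk : ∀ j ∈ J, j + σ ≤ k)
    (hJsep : ∀ j ∈ J, ∀ j' ∈ J, j < j' → j + σ ≤ j')
    (hM : ∀ j ∈ J, (mb G j : ℝ) * (mb G (r - j) : ℝ) ≤ M * (mb G r : ℝ))
    (hMk : (mb G k : ℝ) * (mb G (r - k) : ℝ) ≤ M' * (mb G r : ℝ)) :
    h / (1 + h) * (J.card : ℝ) * ((1 + h) ^ σ * (1 + h) ^ t2) ≤
      J.card * (2 * M * (1 + h) ^ t2 + ((D : ℝ) + 1) ^ σ * M * (1 + h) ^ σ) +
      ((1 + h) ^ σ * (1 + h) ^ t2) * (((D : ℝ) + 1) ^ (1 + t2) * M') := by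
  classical
  obtain ⟨v, hv⟩ := exists_mb G r
  set t := 1 + t2 with ht
  have hσpos : (0 : ℝ) < (1 + h) ^ σ := by positivity
  have ht2pos : (0 : ℝ) < (1 + h) ^ t2 := by positivity
  -- the sphere
  set S := (bl G v r).filter (fun x => G.dist v x = r) with hS
  have hScard : h / (1 + h) * (mb G r : ℝ) ≤ (S.card : ℝ) := by
    have h1 : bl G v r ⊆ S ∪ bl G v (r - 1) := by
      intro x hx
      rw [mem_union, hS, mem_filter, mem_bl]
      rw [mem_bl] at hx ⊢
      omega
    have h2 := (card_le_card h1).trans (card_union_le _ _)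
    have h3 : ((bl G v r).card : ℝ) ≤ (S.card : ℝ) + ((bl G v (r - 1)).card : ℝ) := by
      exact_mod_cast h2
    have h4 := bl_growth hE v (r - 1) (by
      have := bl_le_mb G v (r - 1)
      have := mb_mono G (r := r - 1) (s := r) (by omega)
      omega) hc
    have h5 : r - 1 + 1 = r := by omega
    rw [h5] at h4
    rw [hv] at h3 h4
    have h6 : (0 : ℝ) < 1 + h := by linarith
    rw [div_mul_eq_mul_div, div_le_iff₀ h6]
    nlinarith
  -- geodesics
  have hgeo : ∀ x : V, ∃ u : ℕ → V, G.dist v x = r → u 0 = v ∧ u r = x ∧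
      (∀ i, i < r → G.Adj (u i) (u (i + 1))) := by
    intro x
    by_cases hx : G.dist v x = r
    · obtain ⟨u, hu⟩ := exists_geod hc v x r hx
      exact ⟨u, fun _ => hu⟩
    · exact ⟨fun _ => v, fun h => absurd h hx⟩
  choose u hu using hgeo
  have hxA : ∀ x ∈ S, ∀ j ≤ r, x ∈ bl G (u x j) (r - j) := by
    intro x hxS j hj
    rw [hS, mem_filter] at hxS
    obtain ⟨h1, h2, h3⟩ := hu x hxS.2
    rw [mem_bl]
    have := dist_geod hc (u x) r h3 j r hj le_rfl
    rw [h2] at this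
    exact this
  have huj : ∀ x ∈ S, ∀ j ≤ r, u x j ∈ bl G v j := by
    intro x hxS j hj
    rw [hS, mem_filter] at hxS
    obtain ⟨h1, h2, h3⟩ := hu x hxS.2
    rw [mem_bl]
    have := dist_geod hc (u x) r h3 0 j (Nat.zero_le j) hj
    rw [h1] at this
    omega
  have huij : ∀ x ∈ S, ∀ i j, i ≤ j → j ≤ r → G.dist (u x i) (u x j) ≤ j - i := by
    intro x hxS i j hij hj
    rw [hS, mem_filter] at hxS
    obtain ⟨h1, h2, h3⟩ := hu x hxS.2
    exact dist_geod hc (u x) r h3 i j hij hj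
  -- light pairs, bad pairs, good pairs
  set Hv : V → ℕ → Prop := fun x j =>
    2 * (bl G (u x (j + σ)) (r - j - σ)).card ≤ (bl G (u x j) (r - j)).card with hHv
  set Q := S ×ˢ J with hQ
  set Ql := Q.filter (fun p => ¬ Hv p.1 p.2) with hQl
  set Qh := Q.filter (fun p => Hv p.1 p.2) with hQh
  set Qb := Qh.filter (fun p => p.1 ∈ far G t (u p.1 p.2) (u p.1 (p.2 + σ)) (r - p.2) σ) with hQb
  set Qg := Qh.filter (fun p => ¬ p.1 ∈ far G t (u p.1 p.2) (u p.1 (p.2 + σ)) (r - p.2) σ) with hQg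
  have hsplit1 : Qh.card + Ql.card = Q.card := card_filter_add_card_filter_not _
  have hsplit2 : Qb.card + Qg.card = Qh.card := card_filter_add_card_filter_not _
  -- light pairs
  have hQl1 : Ql.card ≤ ∑ j ∈ J, ∑ a ∈ (bl G v j).filter
      (fun a => (bl G a (r - j)).card < 2 * mb G (r - j - σ)), (bl G a (r - j)).card := by
    set U := J.sigma (fun j => ((bl G v j).filter
      (fun a => (bl G a (r - j)).card < 2 * mb G (r - j - σ))).sigma
        (fun a => bl G a (r - j))) with hU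
    have hUc : U.card = ∑ j ∈ J, ∑ a ∈ (bl G v j).filter
      (fun a => (bl G a (r - j)).card < 2 * mb G (r - j - σ)), (bl G a (r - j)).card := by
      rw [hU, card_sigma]
      apply sum_congr rfl
      intro j _
      rw [card_sigma]
    rw [← hUc]
    apply card_le_card_of_injOn
      (fun p : V × ℕ => (⟨p.2, ⟨u p.1 p.2, p.1⟩⟩ : (_ : ℕ) × ((_ : V) × V)))
    · rintro ⟨x, j⟩ hp
      rw [mem_coe, hQl, mem_filter, hQ, mem_product] at hp
      obtain ⟨⟨hxS, hj⟩, hH⟩ := hp
      simp only [hHv, not_le] at hxS hj hH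
      have hjr : j ≤ r := by have := hJk j hj; omega
      rw [mem_coe, hU, mem_sigma]
      refine ⟨hj, ?_⟩
      rw [mem_sigma, mem_filter]
      refine ⟨⟨huj x hxS j hjr, ?_⟩, hxA x hxS j hjr⟩
      have := bl_le_mb G (u x (j + σ)) (r - j - σ)
      simp only
      omega
    · rintro ⟨x, j⟩ _ ⟨x', j'⟩ _ heq
      simp only [Sigma.mk.injEq, heq_eq_eq] at heq
      obtain ⟨h1, h2⟩ := heq
      subst h1
      obtain ⟨_, h3⟩ := h2
      subst h3
      rfl
  have hQl2 : (1 + h) ^ σ * (Ql.card : ℝ) ≤ J.card * (2 * M * (mb G r : ℝ)) := by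
    have h1 : (Ql.card : ℝ) ≤ ∑ j ∈ J, ∑ a ∈ (bl G v j).filter
      (fun a => (bl G a (r - j)).card < 2 * mb G (r - j - σ)), ((bl G a (r - j)).card : ℝ) := by
      exact_mod_cast hQl1
    calc (1 + h) ^ σ * (Ql.card : ℝ)
        ≤ (1 + h) ^ σ * ∑ j ∈ J, ∑ a ∈ (bl G v j).filter
          (fun a => (bl G a (r - j)).card < 2 * mb G (r - j - σ)),
            ((bl G a (r - j)).card : ℝ) := by
          apply mul_le_mul_of_nonneg_left h1 hσpos.le
      _ = ∑ j ∈ J, ∑ a ∈ (bl G v j).filter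
          (fun a => (bl G a (r - j)).card < 2 * mb G (r - j - σ)),
            (1 + h) ^ σ * ((bl G a (r - j)).card : ℝ) := by
          simp only [mul_sum]
      _ ≤ ∑ j ∈ J, ∑ a ∈ (bl G v j).filter
          (fun a => (bl G a (r - j)).card < 2 * mb G (r - j - σ)),
            2 * (mb G (r - j) : ℝ) := by
          apply sum_le_sum; intro j hj
          apply sum_le_sum; intro a ha
          rw [mem_filter] at ha
          have h2 : ((bl G a (r - j)).card : ℝ) ≤ 2 * (mb G (r - j - σ) : ℝ) := by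
            exact_mod_cast ha.2.le
          have h3 : r - j = (r - j - σ) + σ := by have := hJk j hj; omega
          have h4 := mb_growth_pow hh hE hc (r - j - σ) σ (by
            rw [← h3]
            have := mb_mono G (r := r - j) (s := r) (by omega)
            omega)
          rw [← h3] at h4
          calc (1 + h) ^ σ * ((bl G a (r - j)).card : ℝ)
              ≤ (1 + h) ^ σ * (2 * (mb G (r - j - σ) : ℝ)) := by gcongr
            _ = 2 * ((1 + h) ^ σ * (mb G (r - j - σ) : ℝ)) := by ring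
            _ ≤ 2 * (mb G (r - j) : ℝ) := by gcongr
      _ ≤ ∑ j ∈ J, 2 * (M * (mb G r : ℝ)) := by
          apply sum_le_sum; intro j hj
          rw [sum_const, nsmul_eq_mul]
          have h5 := hM j hj
          have h6 : (((bl G v j).filter
            (fun a => (bl G a (r - j)).card < 2 * mb G (r - j - σ))).card : ℝ) ≤
              (mb G j : ℝ) := by
            exact_mod_cast (card_filter_le _ _).trans (bl_le_mb G v j)
          have h7 : (0 : ℝ) ≤ (mb G (r - j) : ℝ) := by positivity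
          nlinarith
      _ = J.card * (2 * M * (mb G r : ℝ)) := by
          rw [sum_const, nsmul_eq_mul]; ring
  -- bad pairs
  have hQb1 : Qb.card ≤ ∑ j ∈ J, ∑ a ∈ bl G v j, ∑ b ∈ bl G a σ,
      (far G t a b (r - j) σ).card := by
    set U := J.sigma (fun j => (bl G v j).sigma (fun a =>
      (bl G a σ).sigma (fun b => far G t a b (r - j) σ))) with hU
    have hUc : U.card = ∑ j ∈ J, ∑ a ∈ bl G v j, ∑ b ∈ bl G a σ,
      (far G t a b (r - j) σ).card := by
      rw [hU, card_sigma]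
      apply sum_congr rfl
      intro j _
      rw [card_sigma]
      apply sum_congr rfl
      intro a _
      rw [card_sigma]
    rw [← hUc]
    apply card_le_card_of_injOn
      (fun p : V × ℕ => (⟨p.2, ⟨u p.1 p.2, ⟨u p.1 (p.2 + σ), p.1⟩⟩⟩ :
        (_ : ℕ) × ((_ : V) × ((_ : V) × V))))
    · rintro ⟨x, j⟩ hp
      rw [mem_coe, hQb, mem_filter, hQh, mem_filter, hQ, mem_product] at hp
      obtain ⟨⟨⟨hxS, hj⟩, hH⟩, hfar⟩ := hp
      simp only at hxS hj hfar
      have hjr : j + σ ≤ r := by have := hJk j hj; omega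
      rw [mem_coe, hU, mem_sigma]
      refine ⟨hj, ?_⟩
      rw [mem_sigma]
      refine ⟨huj x hxS j (by omega), ?_⟩
      rw [mem_sigma]
      refine ⟨?_, hfar⟩
      rw [mem_bl]
      have := huij x hxS j (j + σ) (by omega) hjr
      simp only
      omega
    · rintro ⟨x, j⟩ _ ⟨x', j'⟩ _ heq
      simp only [Sigma.mk.injEq, heq_eq_eq] at heq
      obtain ⟨h1, h2⟩ := heq
      subst h1
      obtain ⟨_, _, h3⟩ := h2
      subst h3
      rfl
  have hQb2 : (1 + h) ^ t2 * (Qb.card : ℝ) ≤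
      J.card * (((D : ℝ) + 1) ^ σ * M * (mb G r : ℝ)) := by
    have h1 : (Qb.card : ℝ) ≤ ∑ j ∈ J, ∑ a ∈ bl G v j,
        ∑ b ∈ bl G a σ, ((far G t a b (r - j) σ).card : ℝ) := by
      exact_mod_cast hQb1
    calc (1 + h) ^ t2 * (Qb.card : ℝ)
        ≤ (1 + h) ^ t2 * ∑ j ∈ J, ∑ a ∈ bl G v j,
          ∑ b ∈ bl G a σ, ((far G t a b (r - j) σ).card : ℝ) := by
          apply mul_le_mul_of_nonneg_left h1 ht2pos.le
      _ = ∑ j ∈ J, ∑ a ∈ bl G v j, ∑ b ∈ bl G a σ,
            (1 + h) ^ t2 * ((far G t a b (r - j) σ).card : ℝ) := by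
          simp only [mul_sum]
      _ ≤ ∑ j ∈ J, ∑ a ∈ bl G v j, ∑ b ∈ bl G a σ, (mb G (r - j) : ℝ) := by
          apply sum_le_sum; intro j _
          apply sum_le_sum; intro a _
          apply sum_le_sum; intro b _
          exact far_card hh hE t2 a b (r - j) σ
      _ ≤ ∑ j ∈ J, ∑ a ∈ bl G v j, ((D : ℝ) + 1) ^ σ * (mb G (r - j) : ℝ) := by
          apply sum_le_sum; intro j _
          apply sum_le_sum; intro a _
          rw [sum_const, nsmul_eq_mul]
          apply mul_le_mul_of_nonneg_right ?_ (by positivity)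
          have h2 := bl_add_le hD hc a 0 σ
          have h3 : (bl G a 0).card ≤ 1 := (bl_le_mb G a 0).trans (mb_zero hc).le
          rw [zero_add] at h2
          have h4 : (bl G a σ).card ≤ (D + 1) ^ σ := by
            refine h2.trans ?_
            calc (D + 1) ^ σ * (bl G a 0).card ≤ (D + 1) ^ σ * 1 := Nat.mul_le_mul_left _ h3
              _ = (D + 1) ^ σ := mul_one _
          exact_mod_cast h4
      _ = ∑ j ∈ J, ((D : ℝ) + 1) ^ σ * (((bl G v j).card : ℝ) * (mb G (r - j) : ℝ)) := by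
          apply sum_congr rfl; intro j _
          rw [sum_const, nsmul_eq_mul]; ring
      _ ≤ ∑ j ∈ J, ((D : ℝ) + 1) ^ σ * (M * (mb G r : ℝ)) := by
          apply sum_le_sum; intro j hj
          apply mul_le_mul_of_nonneg_left ?_ (by positivity)
          refine le_trans ?_ (hM j hj)
          apply mul_le_mul_of_nonneg_right ?_ (by positivity)
          exact_mod_cast bl_le_mb G v j
      _ = J.card * (((D : ℝ) + 1) ^ σ * M * (mb G r : ℝ)) := by
          rw [sum_const, nsmul_eq_mul]; ring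
  -- good pairs
  have hgood : ∀ p : V × ℕ, ∃ z : V, p ∈ Qg →
      G.dist v z ≤ k ∧ G.dist z p.1 ≤ r - k + t ∧ G.dist (u p.1 p.2) z ≤ k - p.2 ∧
      k - p.2 + 1 ≤ G.dist (u p.1 (p.2 + σ)) z + σ := by
    rintro ⟨x, j⟩
    by_cases hp : (⟨x, j⟩ : V × ℕ) ∈ Qg
    swap
    · exact ⟨v, fun h => absurd h hp⟩
    · have hp' := hp
      rw [hQg, mem_filter, hQh, mem_filter, hQ, mem_product] at hp'
      obtain ⟨⟨⟨hxS, hj⟩, hH⟩, hfar⟩ := hp'
      simp only at hxS hj hfar
      simp only [hHv] at hH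
      have hjk := hJk j hj
      have hxt : x ∈ itg G (bl G (u x j) (r - j))
          (bl G (u x j) (r - j) \ bl G (u x (j + σ)) (r - j - σ)) t := by
        by_contra hcon
        apply hfar
        rw [far, if_pos hH, mem_filter]
        exact ⟨hxA x hxS j (by omega), hcon⟩
      obtain ⟨y, hy, hyx⟩ := itg_near hc t x hxt
      rw [mem_sdiff, mem_bl, mem_bl] at hy
      obtain ⟨z, hz1, hz2⟩ := exists_mid hc (u x j) y (k - j) (r - k) (by omega)
      refine ⟨z, fun _ => ⟨?_, ?_, hz1, ?_⟩⟩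
      · have h4 := huj x hxS j (by omega)
        rw [mem_bl] at h4
        have h5 := hc.dist_triangle (u := v) (v := u x j) (w := z)
        omega
      · have h5 := hc.dist_triangle (u := z) (v := y) (w := x)
        simp only
        omega
      · have h5 := hc.dist_triangle (u := u x (j + σ)) (v := z) (w := y)
        simp only
        omega
  choose z hz using hgood
  have hQg1 : Qg.card ≤ ((bl G v k).sigma (fun a => bl G a (r - k + t))).card := by
    apply card_le_card_of_injOn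
      (fun p : V × ℕ => (⟨z p, p.1⟩ : (_ : V) × V))
    · rintro p hp
      have := hz p hp
      rw [mem_coe, mem_sigma, mem_bl, mem_bl]
      exact ⟨this.1, this.2.1⟩
    · -- injectivity
      have hlt : ∀ x j j', (⟨x, j⟩ : V × ℕ) ∈ Qg → (⟨x, j'⟩ : V × ℕ) ∈ Qg → j < j' →
          z ⟨x, j⟩ ≠ z ⟨x, j'⟩ := by
        intro x j j' hj hj' hlt heq
        have h4 := (hz _ hj).2.2.2
        have h5 := (hz _ hj').2.2.1
        simp only at h4 h5
        rw [heq] at h4
        rw [hQg, mem_filter, hQh, mem_filter, hQ, mem_product] at hj hj'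
        have hxS : x ∈ S := hj.1.1.1
        have hjJ : j ∈ J := hj.1.1.2
        have hjJ' : j' ∈ J := hj'.1.1.2
        have h8 := hJsep j hjJ j' hjJ' hlt
        have h9 := hJk j' hjJ'
        have h6 := huij x hxS (j + σ) j' h8 (by omega)
        have h7 := hc.dist_triangle (u := u x (j + σ)) (v := u x j') (w := z ⟨x, j'⟩)
        omega
      rintro ⟨x, j⟩ hp ⟨x', j'⟩ hp' heq
      simp only [Sigma.mk.injEq, heq_eq_eq] at heq
      obtain ⟨h1, h2⟩ := heq
      subst h2
      rcases lt_trichotomy j j' with h3 | h3 | h3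
      · exact absurd h1 (hlt x j j' hp hp' h3)
      · subst h3; rfl
      · exact absurd h1.symm (hlt x j' j hp' hp h3)
  have hQg2 : (Qg.card : ℝ) ≤ ((D : ℝ) + 1) ^ t * M' * (mb G r : ℝ) := by
    have h1 : Qg.card ≤ mb G k * ((D + 1) ^ t * mb G (r - k)) := by
      refine hQg1.trans ?_
      rw [card_sigma]
      calc ∑ a ∈ bl G v k, (bl G a (r - k + t)).card ≤ ∑ a ∈ bl G v k, ((D + 1) ^ t * mb G (r - k)) := by
            apply sum_le_sum
            intro a _
            exact (bl_le_mb G a _).trans (mb_add_le hD hc (r - k) t)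
        _ = (bl G v k).card * ((D + 1) ^ t * mb G (r - k)) := by rw [sum_const, smul_eq_mul]
        _ ≤ mb G k * ((D + 1) ^ t * mb G (r - k)) := Nat.mul_le_mul_right _ (bl_le_mb G v k)
    have h2 : (Qg.card : ℝ) ≤ (mb G k : ℝ) * (((D : ℝ) + 1) ^ t * (mb G (r - k) : ℝ)) := by
      exact_mod_cast h1
    calc (Qg.card : ℝ) ≤ (mb G k : ℝ) * (((D : ℝ) + 1) ^ t * (mb G (r - k) : ℝ)) := h2
      _ = ((D : ℝ) + 1) ^ t * ((mb G k : ℝ) * (mb G (r - k) : ℝ)) := by ring
      _ ≤ ((D : ℝ) + 1) ^ t * (M' * (mb G r : ℝ)) := by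
          apply mul_le_mul_of_nonneg_left hMk; positivity
      _ = ((D : ℝ) + 1) ^ t * M' * (mb G r : ℝ) := by ring
  -- conclusion
  have hm : (0 : ℝ) < (mb G r : ℝ) := by exact_mod_cast mb_pos G r
  have hq : (S.card : ℝ) * J.card = (Ql.card : ℝ) + ((Qb.card : ℝ) + (Qg.card : ℝ)) := by
    have : S.card * J.card = Ql.card + (Qb.card + Qg.card) := by
      rw [hsplit2, ← card_product, ← hQ]; omega
    exact_mod_cast this
  have hfin : h / (1 + h) * (J.card : ℝ) * ((1 + h) ^ σ * (1 + h) ^ t2) * (mb G r : ℝ) ≤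
      (J.card * (2 * M * (1 + h) ^ t2 + ((D : ℝ) + 1) ^ σ * M * (1 + h) ^ σ) +
      ((1 + h) ^ σ * (1 + h) ^ t2) * (((D : ℝ) + 1) ^ t * M')) * (mb G r : ℝ) := by
    calc h / (1 + h) * (J.card : ℝ) * ((1 + h) ^ σ * (1 + h) ^ t2) * (mb G r : ℝ)
        = (h / (1 + h) * (mb G r : ℝ)) * (J.card * ((1 + h) ^ σ * (1 + h) ^ t2)) := by ring
      _ ≤ (S.card : ℝ) * (J.card * ((1 + h) ^ σ * (1 + h) ^ t2)) := by
          apply mul_le_mul_of_nonneg_right hScard; positivity
      _ = ((1 + h) ^ σ * (1 + h) ^ t2) * ((S.card : ℝ) * J.card) := by ring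
      _ = (1 + h) ^ t2 * ((1 + h) ^ σ * (Ql.card : ℝ)) +
          (1 + h) ^ σ * ((1 + h) ^ t2 * (Qb.card : ℝ)) +
          ((1 + h) ^ σ * (1 + h) ^ t2) * (Qg.card : ℝ) := by rw [hq]; ring
      _ ≤ (1 + h) ^ t2 * (J.card * (2 * M * (mb G r : ℝ))) +
          (1 + h) ^ σ * (J.card * (((D : ℝ) + 1) ^ σ * M * (mb G r : ℝ))) +
          ((1 + h) ^ σ * (1 + h) ^ t2) * (((D : ℝ) + 1) ^ t * M' * (mb G r : ℝ)) := by
          gcongr
      _ = _ := by ring
  exact le_of_mul_le_mul_right hfin hm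

end Pool.Agent.Lib.MP_2f27c1_co
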